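import Pool.Agent.Lib.MP_c86c76_al.T.Surf
import Pool.Agent.Lib.MP_c86c76_al.G.All

/-!
Property (T) of the image of the stabiliser gives it for all subgroups of finite index of the outer
automorphism group of the surface group.
-/

set_option autoImplicit false

namespace Pool.Agent.MT

open Pool.Agent.MB Pool.Agent.MG Pool.Agent.Lib.MP_c86c76_al

theorem mod_T {g : ℕ} (hg : 0 < g) (hT : HasT (toMod g).range)
    (Γ : Subgroup (Out (Pi1 g))) [Γ.FiniteIndex] :
    Group.FG Γ ∧ ∀ S : Finset Γ, Subgroup.closure (S : Set Γ) = ⊤ → ∃ ε > 0, Kaz S ε :=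
  surf_T hg (stab_fg g) hT Γ

theorem mod_T' {g : ℕ} (hg : 0 < g) (hT : HasT (St g))
    (Γ : Subgroup (Out (Pi1 g))) [Γ.FiniteIndex] :
    Group.FG Γ ∧ ∀ S : Finset Γ, Subgroup.closure (S : Set Γ) = ⊤ → ∃ ε > 0, Kaz S ε :=
  mod_T hg (hT.quot _ (toMod g).rangeRestrict_surjective) Γ

end Pool.Agent.MT
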