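import Pool.Agent.Lib.MP_c86c76_al.T.Out
import Pool.Agent.Lib.MP_c86c76_al.G.RwA
import Pool.Agent.Lib.MP_c86c76_al.G.RwB

/-!
The surface group as the quotient of the free group of rank `2 g` by the standard word.
-/

set_option autoImplicit false

namespace Pool.Agent.MT

open Pool.Agent.MB Pool.Agent.MG Pool.Agent.Lib.MP_c86c76_al

/-- The renaming of the letters: the handles are listed backwards. -/
def lett (g : ℕ) : Fin (2 * g) ≃ Fin g × Bool where
  toFun i := (⟨g - 1 - i / 2, by have := i.2; omega⟩, decide ((i : ℕ) % 2 = 1))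
  invFun x := ⟨2 * (g - 1 - x.1) + cond x.2 1 0, by
    have := x.1.2
    cases x.2 <;> simp only [cond_true, cond_false] <;> omega⟩
  left_inv i := Fin.ext (by
    have := i.2
    rcases Nat.mod_two_eq_zero_or_one i with h | h <;> simp [h] <;> omega)
  right_inv x := by
    obtain ⟨⟨i, hi⟩, b⟩ := x
    cases b <;> simp <;> omega

/-- The renaming as an isomorphism of free groups. -/
def letE (g : ℕ) : FN (2 * g) ≃* F g := FreeGroup.freeGroupCongr (lett g)

theorem letE_io {g i : ℕ} (h : i < g) (b : Bool) :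
    letE g (io (2 * g) (2 * (g - 1 - i) + cond b 1 0)) = FreeGroup.of (⟨i, h⟩, b) := by
  rw [io, dif_pos (show 2 * (g - 1 - i) + cond b 1 0 < 2 * g from ((lett g).symm (⟨i, h⟩, b)).2)]
  exact (FreeGroup.map.of (f := lett g)).trans
    (congrArg FreeGroup.of ((lett g).apply_symm_apply (⟨i, h⟩, b)))

theorem letE_rW (g : ℕ) : letE g (ev (2 * g) (rW g)) = bdry g g := by
  have key : ∀ m ≤ g, gw (fun i => letE g (io (2 * g) (2 * g - 2 - 2 * (i / 2) + i % 2)))
      (patC 0 m) = bdry g m := fun m => by
    induction m with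
    | zero => exact fun _ => Raw_nil _
    | succ m ih =>
      intro h
      have h' : m < g := h
      rw [show patC 0 (m + 1) = patC 0 m ++ hd (0 + 2 * m) from rfl, Raw_append, ih h'.le, RwB_hd,
        bdry, bdry, List.range_succ, List.map_append, List.prod_append, List.map_singleton,
        List.prod_singleton, handle, dif_pos h', ← letE_io h' false, ← letE_io h' true,
        show 2 * g - 2 - 2 * ((0 + 2 * m) / 2) + (0 + 2 * m) % 2 =
          2 * (g - 1 - m) + cond false 1 0 by simp only [cond_false]; omega,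
        show 2 * g - 2 - 2 * ((0 + 2 * m + 1) / 2) + (0 + 2 * m + 1) % 2 =
          2 * (g - 1 - m) + cond true 1 0 by simp only [cond_true]; omega]
  exact (Raw_map _ _ (letE g).toMonoidHom _).trans
    ((RwB_pat g _ _ fun _ _ => rfl).symm.trans (key g le_rfl))

/-- The surface group is the one-relator group of the standard word. -/
def surfI (g : ℕ) : OneRel (ev (2 * g) (rW g)) ≃* Pi1 g :=
  QuotientGroup.congr _ _ (letE g) (ncl_map _ (Or.inl (letE_rW g)))

/-- The stabiliser of the standard word. -/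
abbrev St (g : ℕ) : Subgroup (MulAut (FN (2 * g))) :=
  MulAction.stabilizer (MulAut (FN (2 * g))) (ev (2 * g) (rW g))

/-- The outer class in the surface group. -/
def toMod (g : ℕ) : St g →* Out (Pi1 g) := toOut _ (surfI g)

theorem surf_T {g : ℕ} (hg : 0 < g) (hF : Group.FG (St g)) (hT : HasT (toMod g).range)
    (Γ : Subgroup (Out (Pi1 g))) [Γ.FiniteIndex] :
    Group.FG Γ ∧ ∀ S : Finset Γ, Subgroup.closure (S : Set Γ) = ⊤ → ∃ ε > 0, Kaz S ε := by
  obtain ⟨f, -, c, hc⟩ := rwASt (2 * g) g rfl
  have hr : c.r = ev (2 * g) (rW g) := by rw [Ctx.r, hc, Raw_ev]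
  have key : ∀ (r : FN (2 * g)) (e : OneRel r ≃* Pi1 g), c.r = r → Uni r →
      Group.FG (MulAction.stabilizer (MulAut (FN (2 * g))) r) → HasT (toOut r e).range →
      Group.FG Γ ∧ ∀ S : Finset Γ, Subgroup.closure (S : Set Γ) = ⊤ → ∃ ε > 0, Kaz S ε := by
    rintro _ e rfl u a b
    refine out_T c (fun h => ?_) u e a b Γ
    have := c.full.2 (⟨0, by omega⟩, true)
    rw [h] at this
    exact List.not_mem_nil this
  exact key _ _ hr (RwB_uni g) hF hT

end Pool.Agent.MT
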