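import Pool.Agent.Lib.MP_c86c76_al.T.All

/-!
The stabiliser of the boundary word and of the first arc acts on a free group of odd rank. The map
to the outer automorphism group has central kernel and its image is the stabiliser of two conjugacy
classes.
-/

set_option autoImplicit false

namespace Pool.Agent.MT

open Pool.Agent.MB Pool.Agent.MG Pool.Agent.Lib.MP_c86c76_al
open FreeGroup hiding map_mul map_inv map_one

theorem cen_of {α : Type} (x : α) (w : FreeGroup α) (hw : Commute w (of x)) :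
    w ∈ Subgroup.zpowers (of x) := by
  classical
  induction hn : norm w using Nat.strong_induction_on generalizing w with
  | _ n ih =>
    by_cases h1 : w = 1
    · exact h1 ▸ one_mem _
    have hr := Subgroup.mem_zpowers (of x)
    have key : ∀ b, (mk [(x, b)] = of x ∨ mk [(x, b)] = (of x)⁻¹) →
        IsReduced ([(x, b)] ++ w.toWord) → w ∈ Subgroup.zpowers (of x) := fun b e h => by
      have c : Commute (of x) (mk [(x, b)]) := by
        rcases e with e | e <;> rw [e]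
        exact (Commute.refl (of x)).inv_right
      have m : mk [(x, b)] ∈ Subgroup.zpowers (of x) := by
        rcases e with e | e <;> rw [e]
        exacts [hr, inv_mem hr]
      obtain ⟨w', e', hlt⟩ := Ess_core (List.nodup_singleton _) (List.cons_ne_nil _ _)
        (by rcases e with e | e <;> rw [e]; exacts [hw, hw.inv_right]) h1 h
      rw [e']
      refine mul_mem m (ih _ (hn ▸ hlt) w' ?_ rfl)
      rw [show w' = (mk [(x, b)])⁻¹ * w by rw [e', inv_mul_cancel_left]]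
      exact c.symm.inv_left.mul_left hw
    have hV := isReduced_toWord (x := w)
    rcases hW : w.toWord with _ | ⟨⟨y, b⟩, V⟩
    · exact absurd (toWord_eq_nil_iff.1 hW) h1
    · refine key b (by cases b; exacts [Or.inr rfl, Or.inl rfl]) ?_
      rw [hW] at hV ⊢
      exact List.IsChain.cons_cons (fun _ => rfl) hV

variable (n : ℕ)

/-- The embedding of the free group of rank `n + 1`: the last letter goes to `b a b⁻¹`. -/
def emb : FN (n + 1) →* FN (n + 2) := lift fun i => if (i : ℕ) < n then io (n + 2) i else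
  io (n + 2) (n + 1) * io (n + 2) n * (io (n + 2) (n + 1))⁻¹

/-- The retraction that kills `b`. -/
def ret : FN (n + 2) →* FN (n + 1) := lift fun i => io (n + 1) i

variable {n}

theorem io_of {m : ℕ} (i : Fin m) : io m i = of i := dif_pos i.2

theorem emb_io {i : ℕ} (h : i < n) : emb n (io (n + 1) i) = io (n + 2) i := by
  rw [io, dif_pos (by omega : i < n + 1), emb, lift_apply_of, if_pos h]

theorem emb_e : emb n (io (n + 1) n) =
    io (n + 2) (n + 1) * io (n + 2) n * (io (n + 2) (n + 1))⁻¹ := by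
  rw [io, dif_pos n.lt_succ_self, emb, lift_apply_of, if_neg (lt_irrefl n)]

theorem ret_io (i : ℕ) : ret n (io (n + 2) i) = io (n + 1) i := by
  by_cases h : i < n + 2
  · rw [io, dif_pos h, ret, lift_apply_of]
  · rw [Lick_big (by omega), Lick_big (by omega), map_one]

theorem ret_emb (x : FN (n + 1)) : ret n (emb n x) = x := by
  refine DFunLike.congr_fun (ext_hom ((ret n).comp (emb n)) (MonoidHom.id _) fun i => ?_) x
  rw [MonoidHom.comp_apply, MonoidHom.id_apply, ← io_of]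
  obtain h | h : (i : ℕ) < n ∨ (i : ℕ) = n := by omega
  · rw [emb_io h, ret_io]
  · rw [h, emb_e, map_mul, map_mul, map_inv, ret_io, ret_io, Lick_big le_rfl]
    group

theorem emb_inj : Function.Injective (emb n) := Function.LeftInverse.injective ret_emb

theorem emb_ext {G : Type} [Group G] {f g : FN (n + 2) →* G} (h : ∀ x, f (emb n x) = g (emb n x))
    (hb : f (io (n + 2) (n + 1)) = g (io (n + 2) (n + 1))) : f = g := by
  refine ext_hom _ _ fun i => ?_
  rw [← io_of]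
  obtain k | k | k : (i : ℕ) < n ∨ (i : ℕ) = n ∨ (i : ℕ) = n + 1 := by omega
  · rw [← emb_io k, h]
  · have := h (io (n + 1) n)
    simp only [emb_e, map_mul, map_inv, hb] at this
    rw [k, mul_left_cancel (mul_right_cancel this)]
  · rw [k, hb]

/-- The automorphism maps the subgroup and the coset of `b` into themselves. -/
def Keep (φ : MulAut (FN (n + 2))) : Prop := (∀ x, φ (emb n x) ∈ (emb n).range) ∧
  φ (io (n + 2) (n + 1)) * (io (n + 2) (n + 1))⁻¹ ∈ (emb n).range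

theorem Keep.mul {φ ψ : MulAut (FN (n + 2))} (h : Keep φ) (h' : Keep ψ) : Keep (φ * ψ) := by
  refine ⟨fun x => ?_, ?_⟩
  · obtain ⟨y, e⟩ := h'.1 x
    rw [MulAut.mul_apply, ← e]
    exact h.1 y
  · obtain ⟨y, e⟩ := h'.2
    rw [MulAut.mul_apply, ← mul_inv_eq_iff_eq_mul.1 e.symm |>.symm, map_mul, mul_assoc]
    exact mul_mem (h.1 y) h.2

/-- The automorphisms that preserve the subgroup and the coset of `b`. -/
def Pres (n : ℕ) : Subgroup (MulAut (FN (n + 2))) where
  carrier := {φ | Keep φ ∧ Keep φ⁻¹}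
  one_mem' := ⟨⟨fun x => ⟨x, rfl⟩, 1, by simp⟩, fun x => ⟨x, rfl⟩, 1, by simp⟩
  mul_mem' := fun h h' => ⟨h.1.mul h'.1, by rw [mul_inv_rev]; exact h'.2.mul h.2⟩
  inv_mem' := fun h => ⟨h.2, by rw [inv_inv]; exact h.1⟩

theorem Keep.res {φ : MulAut (FN (n + 2))} (h : Keep φ) (x : FN (n + 1)) :
    emb n (ret n (φ (emb n x))) = φ (emb n x) := by
  obtain ⟨y, e⟩ := h.1 x
  rw [← e, ret_emb]

/-- The restriction. -/
def resP (n : ℕ) : Pres n →* MulAut (FN (n + 1)) := MonoidHom.mk' (fun φ =>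
    { toFun := fun x => ret n (φ.1 (emb n x))
      invFun := fun x => ret n (φ.1⁻¹ (emb n x))
      left_inv := fun x => by
        simp only [φ.2.1.res, MulAut.inv_apply_self, ret_emb]
      right_inv := fun x => by
        simp only [φ.2.2.res, MulAut.apply_inv_self, ret_emb]
      map_mul' := fun x y => by simp only [map_mul] })
  fun φ ψ => MulEquiv.ext fun x => congrArg (fun y => ret n (φ.1 y)) (ψ.2.1.res x).symm

theorem keep_of {φ : MulAut (FN (n + 2))} {c : FN (n + 2)} (hc : c ∈ (emb n).range)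
    (ha : φ (io (n + 2) n) = io (n + 2) n)
    (hx : ∀ x < n, ∃ p q : ℤ, φ (io (n + 2) x) = c ^ p * io (n + 2) x * c ^ q)
    (hb : ∃ p : ℤ, φ (io (n + 2) (n + 1)) = c ^ p * io (n + 2) (n + 1)) : Keep φ := by
  obtain ⟨p, hb⟩ := hb
  refine ⟨fun x => ?_, by rw [hb, mul_inv_cancel_right]; exact zpow_mem hc p⟩
  have : ∀ i : Fin (n + 1), φ (emb n (of i)) ∈ (emb n).range := fun i => by
    rw [← io_of]
    obtain k | k : (i : ℕ) < n ∨ (i : ℕ) = n := by omega
    · obtain ⟨p, q, e⟩ := hx i k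
      rw [emb_io k, e, ← emb_io k]
      exact mul_mem (mul_mem (zpow_mem hc p) ⟨_, rfl⟩) (zpow_mem hc q)
    · rw [k, show φ (emb n (io (n + 1) n)) = c ^ p * emb n (io (n + 1) n) * (c ^ p)⁻¹ by
        simp only [emb_e, map_mul, map_inv, ha, hb]; group]
      exact mul_mem (mul_mem (zpow_mem hc p) ⟨_, rfl⟩) (inv_mem (zpow_mem hc p))
  induction x using FreeGroup.induction_on with
  | C1 => simp
  | of i => exact this i
  | inv_of i _ => rw [map_inv, map_inv]; exact inv_mem (this i)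
  | mul x y h h' => rw [map_mul, map_mul]; exact mul_mem h h'

theorem pres_of {φ : MulAut (FN (n + 2))} {c : FN (n + 2)} (hc : c ∈ (emb n).range) (h : φ c = c)
    (ha : φ (io (n + 2) n) = io (n + 2) n)
    (hx : ∀ x < n, ∃ p q : ℤ, φ (io (n + 2) x) = c ^ p * io (n + 2) x * c ^ q)
    (hb : ∃ p : ℤ, φ (io (n + 2) (n + 1)) = c ^ p * io (n + 2) (n + 1)) : φ ∈ Pres n := by
  refine ⟨keep_of hc ha hx hb, keep_of hc (φ.symm_apply_eq.2 ha.symm) (fun x k => ?_) ?_⟩
  · obtain ⟨p, q, e⟩ := hx x k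
    refine ⟨-p, -q, φ.symm_apply_eq.2 ?_⟩
    rw [map_mul, map_mul, map_zpow, map_zpow, h, e]
    group
  · obtain ⟨p, e⟩ := hb
    refine ⟨-p, φ.symm_apply_eq.2 ?_⟩
    rw [map_mul, map_zpow, h, e]
    group

theorem lickA_pres {h : ℕ} {φ : MulAut (FN (2 * h + 2))} (hφ : φ ∈ LickA (2 * h + 2)) :
    φ ∈ Pres (2 * h) := by
  obtain ⟨⟨i, k⟩, ha⟩ := hφ
  replace ha : φ (io (2 * h + 2) (2 * h)) = io (2 * h + 2) (2 * h) := ha
  have m : ∀ x < 2 * h, io (2 * h + 2) x ∈ (emb (2 * h)).range := fun x hx => ⟨_, emb_io hx⟩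
  have z : ∀ (c : FN (2 * h + 2)) x, φ (io _ x) = io _ x →
      ∃ p q : ℤ, φ (io _ x) = c ^ p * io (2 * h + 2) x * c ^ q := fun c x e => ⟨0, 0, by simp [e]⟩
  rcases k with ⟨k, t | t⟩ | ⟨k, t⟩
  · by_cases e : i = h
    · subst e
      refine pres_of ⟨_, emb_e⟩ (by simp only [map_mul, map_inv, ha, t.1]; group) ha
        (fun x hx => z _ x (t.2 x (by omega))) ⟨1, by rw [t.1]; group⟩
    · refine pres_of (m (2 * i) (by omega)) (t.2 _ (by omega)) ha (fun x _ => ?_)
        ⟨0, by simp [t.2 (2 * h + 1) (by omega)]⟩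
      by_cases e' : x = 2 * i + 1
      · exact ⟨0, 1, by simp [e', t.1]⟩
      · exact z _ x (t.2 x e')
  · have e : i ≠ h := by
      rintro rfl
      have := t.1
      rw [ha, left_eq_mul, inv_eq_one, io, dif_pos (by omega)] at this
      exact of_ne_one _ this
    refine pres_of (m (2 * i + 1) (by omega)) (t.2 _ (by omega)) ha (fun x _ => ?_)
      ⟨0, by simp [t.2 (2 * h + 1) (by omega)]⟩
    by_cases e' : x = 2 * i
    · exact ⟨0, -1, by simp [e', t.1]⟩
    · exact z _ x (t.2 x e')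
  · have hc : φ (cc _ i) = cc (2 * h + 2) i := by
      conv_lhs => rw [cc]
      simp only [map_mul, map_inv, t.1, t.2.1,
        t.2.2.2 (2 * i + 2) (by omega) (by omega) (by omega)]
      rw [cc]
      group
    refine pres_of (c := cc _ i) ?_ hc ha (fun x _ => ?_) ?_
    · by_cases e : i + 1 = h
      · subst e
        refine ⟨(io _ (2 * (i + 1)))⁻¹ * io _ (2 * i), ?_⟩
        rw [map_mul, map_inv, emb_e, emb_io (by omega), cc]
        change (io _ (2 * i + 3) * io _ (2 * i + 2) * (io _ (2 * i + 3))⁻¹)⁻¹ * _ = _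
        group
      · exact mul_mem (mul_mem (mul_mem (m _ (by omega)) (inv_mem (m _ (by omega))))
          (inv_mem (m _ (by omega)))) (m _ (by omega))
    · by_cases e0 : x = 2 * i
      · exact ⟨-1, 1, by simp [e0, t.2.1]⟩
      by_cases e1 : x = 2 * i + 1
      · exact ⟨0, 1, by simp [e1, t.2.2.1]⟩
      by_cases e3 : x = 2 * i + 3
      · exact ⟨-1, 0, by simp [e3, t.1]⟩
      · exact z _ x (t.2.2.2 x e0 e1 e3)
    · by_cases e3 : 2 * h + 1 = 2 * i + 3
      · exact ⟨-1, by simp [e3, t.1]⟩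
      · exact ⟨0, by simp [t.2.2.2 (2 * h + 1) (by omega) (by omega) e3]⟩

/-- The stabiliser of the boundary word of genus `h + 1` and of its first arc. -/
def Gam (h : ℕ) : Subgroup (MulAut (FN (2 * h + 2))) :=
  MulAction.stabilizer _ (ev (2 * h + 2) (rW (h + 1))) ⊓
    MulAction.stabilizer _ (io (2 * h + 2) (2 * h))

theorem gam_eq (h : ℕ) : Gam h = Subgroup.closure (LickA (2 * h + 2)) := stabA_eq (h + 1)

theorem gam_le (h : ℕ) : Gam h ≤ Pres (2 * h) :=
  (gam_eq h).le.trans ((Subgroup.closure_le _).2 fun _ => lickA_pres)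

/-- The restriction to the free group of rank `2 h + 1`. -/
def resG (h : ℕ) : Gam h →* MulAut (FN (2 * h + 1)) :=
  (resP (2 * h)).comp (Subgroup.inclusion (gam_le h))

/-- The first boundary class. -/
def eG (h : ℕ) : FN (2 * h + 1) := io (2 * h + 1) (2 * h)

/-- The second boundary class. -/
def sG (h : ℕ) : FN (2 * h + 1) := (eG h)⁻¹ * ev (2 * h + 1) (rW h)

theorem emb_res {h : ℕ} (φ : Gam h) (x : FN (2 * h + 1)) :
    emb (2 * h) (resG h φ x) = φ.1 (emb (2 * h) x) := (gam_le h φ.2).1.res x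

theorem emb_s (h : ℕ) :
    io (2 * h + 2) (2 * h) * emb (2 * h) (sG h) = ev (2 * h + 2) (rW (h + 1)) := by
  rw [Lick_rW, sG, eG, map_mul, map_inv, emb_e, ev, Raw_map, ev,
    RwB_congr _ _ h fun i hi => emb_io hi]
  group

theorem res_s {h : ℕ} (φ : Gam h) : resG h φ (sG h) = sG h := by
  have h1 : φ.1 _ = _ := φ.2.1
  have h2 : φ.1 _ = _ := φ.2.2
  rw [← emb_s, map_mul, h2] at h1
  exact emb_inj ((emb_res φ _).trans (mul_left_cancel h1))

theorem res_e {h : ℕ} (φ : Gam h) : ∃ w, φ.1 (io _ (2 * h + 1)) =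
    emb (2 * h) w * io _ (2 * h + 1) ∧ resG h φ (eG h) = w * eG h * w⁻¹ := by
  obtain ⟨w, e⟩ := (gam_le h φ.2).1.2
  have h2 : φ.1 _ = _ := φ.2.2
  have e' := mul_inv_eq_iff_eq_mul.1 e.symm
  refine ⟨w, e', emb_inj ?_⟩
  simp only [emb_res, eG, emb_e, map_mul, map_inv, h2, e']
  group

theorem res_onto {h : ℕ} (ψ : MulAut (FN (2 * h + 1))) (w : FN (2 * h + 1)) (h1 : ψ (sG h) = sG h)
    (h2 : ψ (eG h) = w * eG h * w⁻¹) : ∃ φ : Gam h, resG h φ = ψ ∧
      φ.1 (io _ (2 * h + 1)) = emb (2 * h) w * io _ (2 * h + 1) := by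
  have key : ∀ (ψ : MulAut (FN (2 * h + 1))) (w : FN (2 * h + 1)), ψ (eG h) = w * eG h * w⁻¹ →
      ∃ f : FN (2 * h + 2) →* FN (2 * h + 2), (∀ x, f (emb _ x) = emb _ (ψ x)) ∧
        f (io _ (2 * h)) = io _ (2 * h) ∧
        f (io _ (2 * h + 1)) = emb (2 * h) w * io _ (2 * h + 1) := fun ψ w k => by
    let f : FN (2 * h + 2) →* FN (2 * h + 2) := lift fun i => if (i : ℕ) < 2 * h then
      emb _ (ψ (io _ i)) else if (i : ℕ) = 2 * h then io _ i else emb _ w * io _ i
    have a : f (io _ (2 * h)) = io _ (2 * h) := by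
      rw [io, dif_pos (by omega), lift_apply_of, if_neg (lt_irrefl _), if_pos rfl, io_of]
    have b : f (io _ (2 * h + 1)) = emb (2 * h) w * io _ (2 * h + 1) := by
      conv_lhs => rw [io, dif_pos (by omega), lift_apply_of, if_neg (by simp), if_neg (by simp)]
    refine ⟨f, DFunLike.congr_fun (ext_hom (f.comp (emb _)) ((emb _).comp ψ.toMonoidHom)
      fun i => ?_), a, b⟩
    change f (emb _ _) = emb _ (ψ _)
    rw [← io_of]
    obtain j | j : (i : ℕ) < 2 * h ∨ (i : ℕ) = 2 * h := by omega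
    · rw [emb_io j, io, dif_pos (by omega), lift_apply_of, if_pos j]
    · rw [j, show ψ (io _ (2 * h)) = _ from k]
      simp only [eG, emb_e, map_mul, map_inv, a, b]
      group
  obtain ⟨f, f1, f2, f3⟩ := key ψ w h2
  obtain ⟨g, g1, -, g3⟩ := key ψ⁻¹ (ψ⁻¹ w⁻¹) (ψ.symm_apply_eq.2 (by
    simp only [map_mul, map_inv, MulAut.apply_inv_self, h2]; group))
  let φ : MulAut (FN (2 * h + 2)) := MonoidHom.toMulEquiv f g
    (emb_ext (fun x => by simp [f1, g1]) (by simp [f3, g1, g3]))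
    (emb_ext (fun x => by simp [f1, g1]) (by simp [f3, f1, g3]))
  have m : φ ∈ Gam h := ⟨show f _ = _ by rw [← emb_s, map_mul, f2, f1, h1], f2⟩
  exact ⟨⟨φ, m⟩, MulEquiv.ext fun x => emb_inj ((emb_res _ x).trans (f1 x)), f3⟩

theorem cen_s {h : ℕ} (u : FN (2 * h + 1)) (hu : Commute u (sG h)) :
    u ∈ Subgroup.zpowers (sG h) := by
  obtain ⟨θ, t1, -⟩ := Lick_one (n := 2 * h + 1) (s := 2 * h) (by omega)
    (ev (2 * h + 1) (rW h))⁻¹ fun F hF => by
      rw [map_inv, ev, Raw_map, RwB_congr _ _ h fun i hi => hF i (by omega)]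
  have e : (MulAut.conj (ev (2 * h + 1) (rW h))⁻¹ * θ) (of ⟨2 * h, by omega⟩) = (sG h)⁻¹ := by
    rw [← io_of, MulAut.mul_apply, t1, MulAut.conj_apply, sG, eG]
    group
  generalize MulAut.conj (ev (2 * h + 1) (rW h))⁻¹ * θ = σ at e
  obtain ⟨k, hk⟩ := cen_of _ (σ⁻¹ u) (by
    have := hu.inv_right.map σ⁻¹
    rwa [← e, MulAut.inv_apply_self] at this)
  refine ⟨-k, ?_⟩
  have := congrArg σ hk
  simp only [map_zpow, e, MulAut.apply_inv_self] at this
  simp only [← this, zpow_neg, inv_zpow]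

/-- The outer class of the restriction. -/
def lam (h : ℕ) : Gam h →* Out (FN (2 * h + 1)) := (cls _).comp (resG h)

theorem cls_one {Q : Type} [Group Q] {σ : MulAut Q} : cls Q σ = 1 ↔ ∃ u, MulAut.conj u = σ :=
  @QuotientGroup.eq_one_iff _ _ _ (inn_normal Q) _

theorem lam_ker (h : ℕ) : (lam h).ker ≤ Subgroup.center (Gam h) := fun φ hφ => by
  obtain ⟨u, hu⟩ := cls_one.1 hφ
  obtain ⟨w, w1, w2⟩ := res_e φ
  obtain ⟨k, rfl⟩ := cen_s u (by
    have := res_s φ
    rw [← hu, MulAut.conj_apply] at this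
    exact mul_inv_eq_iff_eq_mul.1 this)
  obtain ⟨j, hj⟩ := cen_of ⟨2 * h, by omega⟩ ((sG h ^ k)⁻¹ * w) (by
    rw [← hu, MulAut.conj_apply] at w2
    rw [← io_of]
    change _ * eG h = eG h * _
    rw [mul_assoc, show w * eG h = w * eG h * w⁻¹ * w by group, ← w2]
    group)
  rw [← io_of] at hj
  replace hj : w = sG h ^ k * eG h ^ j := inv_mul_eq_iff_eq_mul.1 hj.symm
  refine Subgroup.mem_center_iff.2 fun ψ => Subtype.ext (MulEquiv.toMonoidHom_injective
    (emb_ext (fun x => ?_) ?_))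
  · change ψ.1 (φ.1 _) = φ.1 (ψ.1 _)
    simp only [← emb_res, ← hu, MulAut.conj_apply, map_mul (resG h ψ), map_inv (resG h ψ),
      map_zpow (resG h ψ), res_s]
  · obtain ⟨v, v1, v2⟩ := res_e ψ
    change ψ.1 (φ.1 _) = φ.1 (ψ.1 _)
    rw [w1, v1, map_mul, map_mul, w1, v1, ← emb_res, ← emb_res, ← mul_assoc, ← mul_assoc,
      ← map_mul, ← map_mul, ← hu, hj]
    simp only [MulAut.conj_apply, map_mul (resG h ψ), map_zpow (resG h ψ), res_s, v2, conj_zpow]
    congr 2
    group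

theorem lam_range {h : ℕ} {x : Out (FN (2 * h + 1))} : x ∈ (lam h).range ↔
    ∃ ψ, cls _ ψ = x ∧ IsConj (eG h) (ψ (eG h)) ∧ IsConj (sG h) (ψ (sG h)) := by
  constructor
  · rintro ⟨φ, rfl⟩
    obtain ⟨w, -, e⟩ := res_e φ
    exact ⟨_, rfl, isConj_iff.2 ⟨w, e.symm⟩, by rw [res_s]⟩
  · rintro ⟨ψ, rfl, h1, h2⟩
    obtain ⟨u, hu⟩ := isConj_iff.1 h1
    obtain ⟨v, hv⟩ := isConj_iff.1 h2
    obtain ⟨φ, e, -⟩ := res_onto (MulAut.conj v⁻¹ * ψ) (v⁻¹ * u)
      (by rw [MulAut.mul_apply, ← hv, MulAut.conj_apply]; group)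
      (by rw [MulAut.mul_apply, ← hu, MulAut.conj_apply]; group)
    exact ⟨φ, (congrArg (cls _) e).trans (cls_eq v⁻¹ fun _ => rfl)⟩

/-- The outer class of an automorphism that fixes the boundary word. -/
def lam1 (g : ℕ) : St g →* Out (FN (2 * g)) := (cls _).comp (St g).subtype

theorem lam1_ker (g : ℕ) : (lam1 g).ker ≤ Subgroup.center (St g) := fun φ hφ => by
  obtain ⟨u, hu⟩ := cls_one.1 hφ
  replace hu : MulAut.conj u = φ.1 := hu
  obtain ⟨-, -, c, hc⟩ := rwASt (2 * g) g rfl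
  have hr : c.r = ev (2 * g) (rW g) := by rw [Ctx.r, hc, Raw_ev]
  have fix : ∀ ψ : St g, ψ.1 u = u := fun ψ => by
    rcases cenA _ c u (by
      have : φ.1 _ = _ := φ.2
      rw [← hu, MulAut.conj_apply, ← hr] at this
      exact mul_inv_eq_iff_eq_mul.1 this) with e | ⟨k, rfl⟩
    · have : IsEmpty (Fin (2 * g)) := ⟨fun i => List.not_mem_nil (e ▸ c.full.2 (i, true))⟩
      exact Subsingleton.elim _ _
    · rw [map_zpow, hr, show ψ.1 _ = _ from ψ.2]
  refine Subgroup.mem_center_iff.2 fun ψ => Subtype.ext (MulEquiv.ext fun x => ?_)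
  change ψ.1 (φ.1 _) = φ.1 (ψ.1 _)
  simp only [← hu, MulAut.conj_apply, map_mul, map_inv, fix]

theorem lam1_range {g : ℕ} {x : Out (FN (2 * g))} : x ∈ (lam1 g).range ↔
    ∃ ψ, cls _ ψ = x ∧ IsConj (ev _ (rW g)) (ψ (ev _ (rW g))) := by
  constructor
  · rintro ⟨φ, rfl⟩
    exact ⟨_, rfl, by rw [show (St g).subtype φ _ = _ from φ.2]⟩
  · rintro ⟨ψ, rfl, h⟩
    obtain ⟨v, hv⟩ := isConj_iff.1 h
    refine ⟨⟨MulAut.conj v⁻¹ * ψ, ?_⟩, cls_eq v⁻¹ fun _ => rfl⟩
    change MulAut.conj v⁻¹ (ψ _) = _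
    rw [← hv, MulAut.conj_apply]
    group

/-- A group of outer classes that permutes finitely many conjugacy classes contains the pointwise
stabiliser with finite index. -/
theorem fix_index {Q : Type} [Group Q] (L P : Subgroup (Out Q)) (A B : Set Q) (hA : A.Finite)
    (hB : B.Finite) (hL : ∀ ψ, cls Q ψ ∈ L → ∀ a ∈ A, ∃ b ∈ B, IsConj b (ψ a))
    (hP : ∀ ψ : MulAut Q, (∀ a ∈ A, IsConj a (ψ a)) → cls Q ψ ∈ P) :
    (P.subgroupOf L).FiniteIndex := by
  have := hA.to_subtype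
  have := hB.to_subtype
  have key : ∀ x : L, ∃ (ψ : MulAut Q) (f : A → B), cls Q ψ = x ∧ ∀ a, IsConj (f a : Q) (ψ a) :=
    fun x => by
      obtain ⟨ψ, e⟩ := QuotientGroup.mk_surjective x.1
      choose f h1 h2 using hL ψ (by rw [show cls Q ψ = x from e]; exact x.2)
      exact ⟨ψ, fun a => ⟨f a a.2, h1 _ _⟩, e, fun a => h2 _ _⟩
  choose ψ f h1 h2 using key
  have : Finite (L ⧸ P.subgroupOf L) := by
    refine Finite.of_injective (fun q => f q.out) fun p q e => ?_
    rw [← QuotientGroup.out_eq' p, ← QuotientGroup.out_eq' q]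
    refine QuotientGroup.eq.2 (Subgroup.mem_subgroupOf.2 ?_)
    rw [Subgroup.coe_mul, Subgroup.coe_inv, ← h1, ← h1, ← map_inv, ← map_mul]
    refine hP _ fun a ha => ?_
    have i := (h2 p.out ⟨a, ha⟩).symm.trans
      ((show f p.out = f q.out from e) ▸ h2 q.out ⟨a, ha⟩)
    have := ((ψ p.out)⁻¹ : MulAut Q).toMonoidHom.map_isConj i
    simpa using this
  exact Subgroup.finiteIndex_of_finite_quotient

theorem HasT.glue {Q : Type} [Group Q] {L P : Subgroup Q} (h : HasT L) (hle : P ≤ L)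
    [(P.subgroupOf L).FiniteIndex] : HasT P :=
  (h.sub (P.subgroupOf L)).quot (Subgroup.subgroupOfEquivOfLe hle).toMonoidHom
    (Subgroup.subgroupOfEquivOfLe hle).surjective

end Pool.Agent.MT
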