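import Pool.Agent.Lib.MP_c86c76_al.T.Soft
import Pool.Agent.Lib.MP_c86c76_al.N.All
import Pool.Agent.Lib.MP_c86c76_al.Defs

/-!
From the stabiliser of the boundary word to the outer automorphism group of the surface group.
-/

set_option autoImplicit false

namespace Pool.Agent.MT

open Pool.Agent.MB Pool.Agent.MN Pool.Agent.Lib.MP_c86c76_al

theorem fg_of_sub {G : Type} [Group G] (N : Subgroup G) [N.FiniteIndex] (h : Group.FG N) :
    Group.FG G := by
  obtain ⟨S, hS, hf⟩ := (Subgroup.fg_iff N).1 ((Group.fg_iff_subgroup_fg N).1 h)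
  refine Group.fg_iff.2 ⟨S ∪ Set.range fun q : G ⧸ N => q.out, eq_top_iff.2 fun g _ => ?_,
    hf.union (Set.finite_range _)⟩
  obtain ⟨k, hk⟩ := QuotientGroup.mk_out_eq_mul N g
  rw [eq_mul_inv_of_mul_eq hk.symm]
  refine mul_mem (Subgroup.subset_closure (Or.inr ⟨_, rfl⟩)) (inv_mem ?_)
  exact Subgroup.closure_mono Set.subset_union_left (hS.symm ▸ k.2)

/-- The one-relator group. -/
abbrev OneRel {G : Type} [Group G] (r : G) : Type := G ⧸ Subgroup.normalClosure {r}

theorem ncl_map {G G' : Type} [Group G] [Group G'] (e : G ≃* G') {r : G} {r' : G'}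
    (h : e r = r' ∨ e r = r'⁻¹) :
    (Subgroup.normalClosure {r}).map (e : G →* G') = Subgroup.normalClosure {r'} := by
  rw [Subgroup.map_normalClosure _ _ e.surjective, Set.image_singleton]
  change Subgroup.normalClosure {e r} = _
  rcases h with h | h
  · rw [h]
  · rw [h]
    refine le_antisymm (Subgroup.normalClosure_le_normal ?_) (Subgroup.normalClosure_le_normal ?_)
    · rintro _ rfl
      exact inv_mem (Subgroup.subset_normalClosure rfl)
    · rintro _ rfl
      exact inv_mem_iff.1 (Subgroup.subset_normalClosure rfl)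

/-- The induced automorphism. -/
def ind {G : Type} [Group G] (r : G) : MulAction.stabilizer (MulAut G) r →* MulAut (OneRel r) :=
  MonoidHom.mk' (fun φ => QuotientGroup.congr _ _ φ.1 (ncl_map φ.1 (Or.inl φ.2))) fun _ _ =>
    MulEquiv.ext fun x => by obtain ⟨w, rfl⟩ := QuotientGroup.mk_surjective x; rfl

/-- The outer class in an isomorphic group. -/
def toOut {G Q : Type} [Group G] [Group Q] (r : G) (e : OneRel r ≃* Q) :
    MulAction.stabilizer (MulAut G) r →* Out Q :=
  (cls Q).comp ((MulAut.congr e).toMonoidHom.comp (ind r))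

theorem cls_eq {Q : Type} [Group Q] {σ τ : MulAut Q} (u : Q) (h : ∀ x, τ x = u * σ x * u⁻¹) :
    cls Q τ = cls Q σ := by
  have : τ = MulAut.conj u * σ := MulEquiv.ext h
  rw [this, map_mul, show cls Q (MulAut.conj u) = 1 from
    (@QuotientGroup.eq_one_iff _ _ _ (inn_normal Q) _).2 ⟨u, rfl⟩, one_mul]

theorem toOut_index {α : Type} [Finite α] (c : Ctx α) (hne : c.W ≠ [])
    (uni : ∀ (a : α → ℤ) (d : ℤ), (∀ b, d ∣ om a b c.r) → ∀ x, d ∣ a x) {Q : Type} [Group Q]
    (e : OneRel c.r ≃* Q) : (toOut c.r e).range.FiniteIndex := by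
  have key : ∀ x : Out Q, ∃ (φ : MulAut (FreeGroup α)) (τ : MulAut Q),
      (φ c.r = c.r ∨ φ c.r = c.r⁻¹) ∧ x = cls Q τ ∧ ∀ w : FreeGroup α,
        τ (e (QuotientGroup.mk w)) = e (QuotientGroup.mk (φ w)) := fun x => by
    obtain ⟨σ, rfl⟩ := QuotientGroup.mk_surjective x
    obtain ⟨φ, u, h1, h2⟩ := nielsen c hne uni ((MulAut.congr e).symm σ)
    refine ⟨φ, MulAut.conj (e (QuotientGroup.mk u)) * σ, h1, (cls_eq _ fun _ => rfl).symm,
      fun w => ?_⟩
    rw [h2]
    simp [MulAut.congr]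
  choose φ τ h1 h2 h3 using key
  have same : ∀ x y : Out Q, φ x c.r = φ y c.r → x⁻¹ * y ∈ (toOut c.r e).range := fun x y h => by
    refine ⟨⟨(φ x)⁻¹ * φ y, (φ x).symm_apply_eq.2 h.symm⟩, ?_⟩
    conv_rhs => rw [h2 x, h2 y, ← map_inv, ← map_mul]
    refine congrArg (cls Q) (MulEquiv.ext fun q => ?_)
    obtain ⟨q, rfl⟩ := e.surjective q
    obtain ⟨w, rfl⟩ := QuotientGroup.mk_surjective q
    rw [MulAut.mul_apply, h3]
    refine ((τ x).symm_apply_eq.2 ?_).symm
    change _ = τ x (e (ind c.r _ (e.symm (e _))))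
    rw [e.symm_apply_apply]
    change _ = τ x (e (QuotientGroup.mk ((φ x).symm (φ y w))))
    rw [h3, MulEquiv.apply_symm_apply]
  have : Finite (Out Q ⧸ (toOut c.r e).range) := by
    refine Finite.of_injective (β := ({c.r, c.r⁻¹} : Set (FreeGroup α)))
      (fun q => ⟨φ q.out c.r, h1 _⟩) fun p q h => ?_
    rw [← QuotientGroup.out_eq' p, ← QuotientGroup.out_eq' q]
    exact QuotientGroup.eq.2 (same _ _ (congrArg Subtype.val h))
  exact Subgroup.finiteIndex_of_finite_quotient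

theorem out_T {α : Type} [Finite α] (c : Ctx α) (hne : c.W ≠ [])
    (uni : ∀ (a : α → ℤ) (d : ℤ), (∀ b, d ∣ om a b c.r) → ∀ x, d ∣ a x) {Q : Type} [Group Q]
    (e : OneRel c.r ≃* Q) (hF : Group.FG (MulAction.stabilizer (MulAut (FreeGroup α)) c.r))
    (hT : HasT (toOut c.r e).range) (Γ : Subgroup (Out Q)) [Γ.FiniteIndex] :
    Group.FG Γ ∧ ∀ S : Finset Γ, Subgroup.closure (S : Set Γ) = ⊤ → ∃ ε > 0, Kaz S ε := by
  have := toOut_index c hne uni e
  have : Group.FG (Out Q) := fg_of_sub _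
    (Group.fg_of_surjective (toOut c.r e).rangeRestrict_surjective)
  exact ⟨Subgroup.fg_of_index_ne_zero Γ, ((HasT.of_sub _ hT).sub Γ).gen⟩

end Pool.Agent.MT
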