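import Mathlib

/-!
Kazhdan pairs and property (T).
-/

set_option autoImplicit false

namespace Pool.Agent.MT

/-- Every unitary representation with a unit vector moved by less than `ε` by the members of `S`
has a nonzero invariant vector. -/
def Kaz {G : Type} [Group G] (S : Finset G) (ε : ℝ) : Prop :=
  ∀ (H : Type) [NormedAddCommGroup H] [InnerProductSpace ℂ H] [CompleteSpace H]
    (π : G →* (H ≃ₗᵢ[ℂ] H)) (v : H), ‖v‖ = 1 → (∀ s ∈ S, ‖π s v - v‖ < ε) →
    ∃ w : H, w ≠ 0 ∧ ∀ g, π g w = w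

/-- Property (T). -/
def HasT (G : Type) [Group G] : Prop := ∃ (S : Finset G) (ε : ℝ), 0 < ε ∧ Kaz S ε

end Pool.Agent.MT
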