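import Pool.Agent.Lib.MP_c86c76_al.T.Defs
import Pool.Agent.Lib.MP_c8f1ce_al.HNHilb

/-!
Property (T) passes to quotients, to subgroups of finite index and from them, and holds for every
finite generating set.
-/

set_option autoImplicit false

namespace Pool.Agent.MT

open Pool.Agent.Lib.MP_c8f1ce_al.HN
open scoped InnerProductSpace

variable {G : Type} [Group G]

section Rep

variable {H : Type} [NormedAddCommGroup H] [InnerProductSpace ℂ H] [CompleteSpace H]

theorem Kaz.scale {S : Finset G} {ε : ℝ} (h : Kaz S ε) (π : G →* (H ≃ₗᵢ[ℂ] H)) {v : H}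
    (hv : v ≠ 0) (hs : ∀ s ∈ S, ‖π s v - v‖ < ε * ‖v‖) : ∃ w : H, w ≠ 0 ∧ ∀ g, π g w = w := by
  have h0 : 0 < ‖v‖ := norm_pos_iff.2 hv
  have e : ∀ u : H, ‖((‖v‖⁻¹ : ℝ) : ℂ) • u‖ = ‖v‖⁻¹ * ‖u‖ := fun u => by
    rw [norm_smul, Complex.norm_real, Real.norm_of_nonneg (by positivity)]
  refine h H π (((‖v‖⁻¹ : ℝ) : ℂ) • v) (by rw [e, inv_mul_cancel₀ h0.ne']) fun s m => ?_
  rw [map_smul, ← smul_sub, e, inv_mul_lt_iff₀ h0, mul_comm]
  exact hs s m

/-- The restriction of a representation to an invariant subspace. -/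
def res (π : G →* (H ≃ₗᵢ[ℂ] H)) (K : Submodule ℂ H) (hK : ∀ g, ∀ v ∈ K, π g v ∈ K) :
    G →* (K ≃ₗᵢ[ℂ] K) :=
  MonoidHom.mk' (fun g =>
    { toFun := fun v => ⟨π g v, hK g v v.2⟩
      invFun := fun v => ⟨π g⁻¹ v, hK _ v v.2⟩
      map_add' := fun u v => Subtype.ext (map_add (π g) (u : H) v)
      map_smul' := fun c v => Subtype.ext (map_smul (π g) c (v : H))
      left_inv := fun v => Subtype.ext (rep_inv_apply π g v)
      right_inv := fun v => Subtype.ext (rep_apply_inv π g v)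
      norm_map' := fun v => (π g).norm_map v })
    fun g h => LinearIsometryEquiv.ext fun v => Subtype.ext (rep_mul π g h v)

/-- Almost invariant vectors are near invariant vectors. -/
theorem Kaz.near {S : Finset G} {ε δ : ℝ} (h : Kaz S ε) (π : G →* (H ≃ₗᵢ[ℂ] H)) {v : H}
    (hδ : 0 ≤ δ) (hs : ∀ s ∈ S, ‖π s v - v‖ ≤ δ) :
    ∃ w : H, (∀ g, π g w = w) ∧ ε * ‖v - w‖ ≤ δ := by
  have hw : ∀ g, π g (pr π Set.univ v) = pr π Set.univ v := fun g => pr_mem π _ v g trivial
  refine ⟨pr π Set.univ v, hw, not_lt.1 fun hlt => ?_⟩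
  have hK : ∀ g, ∀ u ∈ (fix π Set.univ)ᗮ, π g u ∈ (fix π Set.univ)ᗮ := fun g u hu w m => by
    rw [← m g trivial, (π g).inner_map_map]
    exact hu w m
  obtain ⟨w, w0, e⟩ := h.scale (res π _ hK)
    (v := ⟨v - pr π Set.univ v, fun w m => inner_sub_pr' π _ v w m⟩)
    (fun e => by
      rw [show v - pr π Set.univ v = 0 from congrArg Subtype.val e, norm_zero, mul_zero] at hlt
      exact hδ.not_gt hlt)
    fun s m => lt_of_le_of_lt (by
      change ‖π s (v - pr π Set.univ v) - (v - pr π Set.univ v)‖ ≤ δ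
      rw [map_sub, hw, sub_sub_sub_cancel_right]
      exact hs s m) hlt
  exact w0 (Subtype.ext (inner_self_eq_zero.1 (w.2 w fun g _ => congrArg Subtype.val (e g))))

end Rep

theorem HasT.quot {G' : Type} [Group G'] (h : HasT G) (f : G →* G') (hf : Function.Surjective f) :
    HasT G' := by
  classical
  obtain ⟨S, ε, h0, h⟩ := h
  refine ⟨S.image f, ε, h0, fun H _ _ _ π v h1 h2 => ?_⟩
  obtain ⟨w, w0, e⟩ := h H (π.comp f) v h1 fun s m => h2 _ (Finset.mem_image_of_mem f m)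
  exact ⟨w, w0, hf.forall.2 e⟩

theorem HasT.gen (h : HasT G) (S : Finset G) (hS : Subgroup.closure (S : Set G) = ⊤) :
    ∃ ε > 0, Kaz S ε := by
  obtain ⟨S0, ε, h0, h⟩ := h
  have key : ∀ g : G, ∃ n : ℕ, ∀ (H : Type) [NormedAddCommGroup H] [InnerProductSpace ℂ H]
      (π : G →* (H ≃ₗᵢ[ℂ] H)) (v : H) (δ : ℝ), (∀ s ∈ S, ‖π s v - v‖ < δ) →
      0 ≤ δ → ‖π g v - v‖ ≤ n * δ := fun g => by
    have : g ∈ Subgroup.closure (S : Set G) := hS ▸ Subgroup.mem_top g
    induction this using Subgroup.closure_induction with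
    | mem x hx => exact ⟨1, fun H _ _ π v δ h _ => by simpa using (h x hx).le⟩
    | one => exact ⟨0, fun H _ _ π v δ _ _ => by simp⟩
    | mul x y _ _ hx hy =>
      obtain ⟨n, hn⟩ := hx
      obtain ⟨m, hm⟩ := hy
      refine ⟨n + m, fun H _ _ π v δ h d => (norm_rep_mul_sub_le π x y v).trans ?_⟩
      rw [Nat.cast_add, add_mul]
      exact add_le_add (hn H π v δ h d) (hm H π v δ h d)
    | inv x _ hx =>
      exact hx.imp fun n hn H _ _ π v δ h d => (norm_rep_inv_sub π x v).trans_le (hn H π v δ h d)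
  choose n hn using key
  have p : (0 : ℝ) < (S0.sup n : ℕ) + 1 := by positivity
  refine ⟨ε / ((S0.sup n : ℕ) + 1), by positivity, fun H _ _ _ π v h1 h2 => h H π v h1 fun s m => ?_⟩
  refine (hn s H π v _ h2 (by positivity)).trans_lt ?_
  have : (n s : ℝ) ≤ (S0.sup n : ℕ) := Nat.cast_le.2 (Finset.le_sup m)
  rw [← mul_div_assoc, div_lt_iff₀ p]
  nlinarith

theorem HasT.of_sub (N : Subgroup G) [N.FiniteIndex] (h : HasT N) : HasT G := by
  classical
  obtain ⟨S, ε, h0, h⟩ := h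
  have := Subgroup.fintypeQuotientOfFiniteIndex (H := N)
  refine ⟨S.image Subtype.val ∪ Finset.univ.image fun q : G ⧸ N => q.out, min (1 / 4) (ε / 4),
    by positivity, fun H _ _ _ π v h1 h2 => ?_⟩
  obtain ⟨w, e, hw⟩ := h.near (π.comp N.subtype) (v := v) (δ := ε / 4) (by positivity) fun s m =>
    (h2 _ (Finset.mem_union_left _ (Finset.mem_image_of_mem _ m))).le.trans (min_le_right _ _)
  have hw' : ‖v - w‖ ≤ 1 / 4 := by nlinarith [norm_nonneg (v - w)]
  refine ⟨∑ q : G ⧸ N, π q.out w, fun z => ?_, fun g => ?_⟩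
  · have b : ∀ q : G ⧸ N, ‖v - π q.out w‖ ≤ 1 / 2 := fun q => by
      have i1 := (h2 _ (Finset.mem_union_right _
        (Finset.mem_image_of_mem _ (Finset.mem_univ q)))).le.trans (min_le_left _ _)
      have i2 : v - π q.out w = π q.out (v - w) - (π q.out v - v) := by rw [map_sub]; abel
      have i3 := norm_sub_le (π q.out (v - w)) (π q.out v - v)
      rw [← i2, (π _).norm_map] at i3
      linarith
    have i := (norm_sum_le Finset.univ fun q : G ⧸ N => v - π q.out w).trans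
      (Finset.sum_le_sum fun q _ => b q)
    rw [Finset.sum_sub_distrib, z, sub_zero, Finset.sum_const, Finset.sum_const,
      ← Nat.cast_smul_eq_nsmul ℂ, norm_smul, h1, Complex.norm_natCast, nsmul_eq_mul] at i
    have : (0 : ℝ) < (Finset.univ : Finset (G ⧸ N)).card := Nat.cast_pos.2 Fintype.card_pos
    linarith
  · rw [map_sum, ← Equiv.sum_comp (MulAction.toPerm g) fun q : G ⧸ N => π q.out w]
    refine Finset.sum_congr rfl fun q _ => ?_
    have m : ((g • q).out)⁻¹ * (g * q.out) ∈ N := QuotientGroup.eq.1 (by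
      rw [QuotientGroup.out_eq', ← smul_eq_mul, MulAction.Quotient.mk_smul_out])
    have := e ⟨_, m⟩
    change π (_ * _) w = w at this
    rw [← rep_mul]
    change _ = π (g • q).out w
    conv_rhs => rw [← this, ← rep_mul, mul_inv_cancel_left]

/-- The cocycle of a subgroup. -/
noncomputable def coc (N : Subgroup G) (g : G) (q : G ⧸ N) : N :=
  ⟨(q.out)⁻¹ * (g * (g⁻¹ • q).out), QuotientGroup.eq.1 (by
    rw [QuotientGroup.out_eq', ← smul_eq_mul, MulAction.Quotient.mk_smul_out, smul_inv_smul])⟩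

theorem HasT.sub (h : HasT G) (N : Subgroup G) [N.FiniteIndex] : HasT N := by
  classical
  obtain ⟨S, ε, h0, h⟩ := h
  have := Subgroup.fintypeQuotientOfFiniteIndex (H := N)
  refine ⟨(S ×ˢ Finset.univ).image fun p => coc N p.1 p.2, ε, h0, fun H _ _ _ π v h1 h2 => ?_⟩
  let ρ : G →* (PiLp 2 (fun _ : G ⧸ N => H) ≃ₗᵢ[ℂ] PiLp 2 fun _ : G ⧸ N => H) :=
    MonoidHom.mk' (fun g => (LinearIsometryEquiv.piLpCongrLeft 2 ℂ H (MulAction.toPerm g)).trans
      (LinearIsometryEquiv.piLpCongrRight 2 fun q => π (coc N g q))) fun g g' =>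
        LinearIsometryEquiv.ext fun f => PiLp.ext fun q => by
          change π (coc N (g * g') q) (f ((g * g')⁻¹ • q)) =
            π (coc N g q) (π (coc N g' (g⁻¹ • q)) (f (g'⁻¹ • g⁻¹ • q)))
          rw [← rep_mul, mul_inv_rev, mul_smul]
          congr 2
          exact Subtype.ext (by simp [coc, mul_assoc, mul_smul])
  have hρ : ∀ g f q, ρ g f q = π (coc N g q) (f (g⁻¹ • q)) := fun _ _ _ => rfl
  let u : PiLp 2 fun _ : G ⧸ N => H := WithLp.toLp 2 fun _ => v
  have v0 : v ≠ 0 := norm_ne_zero_iff.1 (h1 ▸ one_ne_zero)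
  obtain ⟨f, f0, e⟩ := h.scale ρ (v := u) (fun z => v0 (congrArg (fun f => f (1 : G)) z))
    fun s m => by
      refine lt_of_pow_lt_pow_left₀ 2 (by positivity) ?_
      rw [mul_pow, PiLp.norm_sq_eq_of_L2, PiLp.norm_sq_eq_of_L2, Finset.mul_sum]
      refine Finset.sum_lt_sum_of_nonempty Finset.univ_nonempty fun q _ => ?_
      change ‖π (coc N s q) v - v‖ ^ 2 < ε ^ 2 * ‖v‖ ^ 2
      rw [h1, one_pow, mul_one]
      exact pow_lt_pow_left₀ (h2 _ (Finset.mem_image_of_mem (fun p => coc N p.1 p.2)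
        (Finset.mk_mem_product m (Finset.mem_univ q)))) (norm_nonneg _) two_ne_zero
  have t : ((1 : G) : G ⧸ N).out ∈ N := by
    have := QuotientGroup.eq.1 (QuotientGroup.out_eq' ((1 : G) : G ⧸ N)).symm
    rwa [inv_one, one_mul] at this
  refine ⟨f (1 : G), fun z => f0 (PiLp.ext fun q => ?_), fun g => ?_⟩
  · rw [← e q.out, hρ, show (q.out)⁻¹ • q = ((1 : G) : G ⧸ N) by
      rw [inv_smul_eq_iff, MulAction.Quotient.smul_coe, smul_eq_mul, mul_one,
        QuotientGroup.out_eq'], z, map_zero]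
    rfl
  · let k : G := ((1 : G) : G ⧸ N).out * g * (((1 : G) : G ⧸ N).out)⁻¹
    have i : k⁻¹ • ((1 : G) : G ⧸ N) = (1 : G) := by
      rw [MulAction.Quotient.smul_coe, smul_eq_mul, mul_one, QuotientGroup.eq, inv_inv, mul_one]
      exact mul_mem (mul_mem t g.2) (inv_mem t)
    have j : coc N k (1 : G) = g := Subtype.ext (by simp only [coc, i, k]; group)
    conv_rhs => rw [← e k, hρ, i, j]

end Pool.Agent.MT
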